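import Mathlib

namespace Pool.Agent.Results.MP_d015f1_co.Example

def Appears {A : Type} (p : Finset ℤ × (ℤ → A)) (q : ℤ → Option A) : Prop :=
  ∃ i, ∀ s ∈ p.1, q (i + s) = some (p.2 s)

inductive WinA {A : Type} (pass : Bool) (E : Set ℤ) (F : Set (Finset ℤ × (ℤ → A))) :
    (ℤ → Option A) → Bool → Prop
  | final (q t) : (∃ p ∈ F, Appears p q) → WinA pass E F q t
  | moveA (q i a) : i ∈ E → q i = none → WinA pass E F (Function.update q i (some a)) false →
      WinA pass E F q true
  | passA (q) : pass = true → WinA pass E F q false → WinA pass E F q true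
  | moveB (q) : (∃ i ∈ E, q i = none) →
      (∀ i ∈ E, ∀ a, q i = none → WinA pass E F (Function.update q i (some a)) true) →
      (pass = true → WinA pass E F q true) → WinA pass E F q false

abbrev L := Bool × Bool

def g2 (x : Bool) : Finset ℤ × (ℤ → L) := ({0, 1}, fun s => (decide (s = 1), x))

def g5 (x : Bool × Bool × Bool × Bool) : Finset ℤ × (ℤ → L) :=
  ({0, 1, 2, 3, 4}, fun s => if s = 0 then (false, x.1) else if s = 1 then (false, x.2.1)
    else if s = 2 then (false, x.2.2.1) else if s = 3 then (true, x.2.2.2) else (true, x.1))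

def FF : Set (Finset ℤ × (ℤ → L)) := Set.range g2 ∪ Set.range g5

lemma app (q : ℤ → Option L) : (∃ p ∈ FF, Appears p q) ↔
    (∃ j x, q j = some (false, x) ∧ q (j + 1) = some (true, x)) ∨
    (∃ j x a b c, q j = some (false, x) ∧ q (j + 1) = some (false, a) ∧
      q (j + 2) = some (false, b) ∧ q (j + 3) = some (true, c) ∧ q (j + 4) = some (true, x)) := by
  constructor
  · rintro ⟨p, ⟨x, rfl⟩ | ⟨⟨x, a, b, c⟩, rfl⟩, j, h⟩
    · exact Or.inl ⟨j, x, by simpa [g2] using h⟩
    · exact Or.inr ⟨j, x, a, b, c, by simpa [g5] using h⟩
  · rintro (⟨j, x, h⟩ | ⟨j, x, a, b, c, h⟩)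
    · exact ⟨_, Or.inl ⟨x, rfl⟩, j, by simpa [g2] using h⟩
    · exact ⟨_, Or.inr ⟨(x, a, b, c), rfl⟩, j, by simpa [g5] using h⟩

def I1 (q : ℤ → Option L) : Prop :=
  ∀ j k x, k = j + 1 → q j = some (false, x) → q k ≠ none ∧ q k ≠ some (true, x)

def I2 (q : ℤ → Option L) : Prop := ∀ j k x, k = j + 1 → q k = some (true, x) → q j ≠ none

def I3 (q : ℤ → Option L) : Prop :=
  ∀ j a b c, q (j + 1) = some (false, a) → q (j + 2) = some (false, b) →
    q (j + 3) = some (true, c) → (q j = none → ∀ y, q (j + 4) ≠ some (true, y)) ∧
      ∀ x, q j = some (false, x) → q (j + 4) ≠ none ∧ q (j + 4) ≠ some (true, x)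

def Inv (q : ℤ → Option L) : Prop := I1 q ∧ I2 q ∧ I3 q

def Inv2 (q : ℤ → Option L) : Prop :=
  Inv q ∨ ∃ j a, q j = none ∧ Inv (Function.update q j (some a))

lemma nopat (q : ℤ → Option L) (h : Inv q) : ¬ ∃ p ∈ FF, Appears p q := by
  rw [app]
  rintro (⟨j, x, h1, h2⟩ | ⟨j, x, a, b, c, h1, h2, h3, h4, h5⟩)
  · exact (h.1 j _ x rfl h1).2 h2
  · exact ((h.2.2 j a b c h2 h3 h4).2 x h1).2 h5

lemma caseA (q : ℤ → Option L) (h : Inv q) (i : ℤ) (x : Bool) (h0 : q i = none)
    (h1 : q (i + 1) = none) :
    Inv (Function.update (Function.update q i (some (false, x))) (i + 1) (some (true, !x))) := by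
  obtain ⟨a, b, c⟩ := h
  refine ⟨?_, ?_, ?_⟩
  · intro j k y e
    have := a j k y e
    have := b j k
    simp only [Function.update_apply]
    grind (splits := 30)
  · intro j k y e
    have := b j k y e
    have := a j k
    simp only [Function.update_apply]
    grind (splits := 30)
  · intro j u v w
    have := c j u v w
    have := a j (j + 1)
    have := a (j + 1) (j + 2)
    have := a (j + 2) (j + 3)
    have := b (j + 2) (j + 3)
    have := b (j + 3) (j + 4)
    simp only [Function.update_apply]
    grind (splits := 30)

lemma caseB (q : ℤ → Option L) (h : Inv q) (i : ℤ) (x : Bool) (h0 : q i = none)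
    (h1 : q (i - 1) = none) :
    Inv (Function.update (Function.update q i (some (true, x))) (i - 1) (some (false, !x))) := by
  obtain ⟨a, b, c⟩ := h
  refine ⟨?_, ?_, ?_⟩
  · intro j k y e
    have := a j k y e
    have := b j k
    simp only [Function.update_apply]
    grind (splits := 30)
  · intro j k y e
    have := b j k y e
    have := a j k
    simp only [Function.update_apply]
    grind (splits := 30)
  · intro j u v w
    have := c j u v w
    have := a j (j + 1)
    have := a (j + 1) (j + 2)
    have := a (j + 2) (j + 3)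
    have := b (j + 2) (j + 3)
    have := b (j + 3) (j + 4)
    simp only [Function.update_apply]
    grind (splits := 30)

lemma caseC (q : ℤ → Option L) (h : Inv q) (i : ℤ) (x : Bool) (h0 : q i = none)
    (u v w : Bool) (h1 : q (i + 1) = some (false, u)) (h2 : q (i + 2) = some (false, v))
    (h3 : q (i + 3) = some (true, w)) (h4 : q (i + 4) = none) :
    Inv (Function.update (Function.update q i (some (false, x))) (i + 4) (some (true, !x))) := by
  obtain ⟨a, b, c⟩ := h
  refine ⟨?_, ?_, ?_⟩
  · intro j k y e
    have := a j k y e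
    have := b j k
    simp only [Function.update_apply]
    grind (splits := 30)
  · intro j k y e
    have := b j k y e
    have := a j k
    simp only [Function.update_apply]
    grind (splits := 30)
  · intro j u v w
    have := c j u v w
    have := a j (j + 1)
    have := a (j + 1) (j + 2)
    have := a (j + 2) (j + 3)
    have := b (j + 2) (j + 3)
    have := b (j + 3) (j + 4)
    simp only [Function.update_apply]
    grind (splits := 30)

lemma caseD (q : ℤ → Option L) (h : Inv q) (i : ℤ) (x : Bool) (h0 : q i = none)
    (v w z : Bool) (h1 : q (i + 1) = some (false, v)) (h2 : q (i + 2) = some (true, w))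
    (h3 : q (i + 3) = some (true, z)) (h4 : q (i - 1) = none) :
    Inv (Function.update (Function.update q i (some (false, x))) (i - 1) (some (false, !z))) := by
  obtain ⟨a, b, c⟩ := h
  refine ⟨?_, ?_, ?_⟩
  · intro j k y e
    have := a j k y e
    have := b j k
    simp only [Function.update_apply]
    grind (splits := 30)
  · intro j k y e
    have := b j k y e
    have := a j k
    simp only [Function.update_apply]
    grind (splits := 30)
  · intro j u v w
    have := c j u v w
    have := a j (j + 1)
    have := a (j + 1) (j + 2)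
    have := a (j + 2) (j + 3)
    have := b (j + 2) (j + 3)
    have := b (j + 3) (j + 4)
    simp only [Function.update_apply]
    grind (splits := 30)

lemma caseE (q : ℤ → Option L) (h : Inv q) (i : ℤ) (x : Bool) (h0 : q i = none)
    (u v w : Bool) (h1 : q (i - 1) = some (true, w)) (h2 : q (i - 2) = some (false, v))
    (h3 : q (i - 3) = some (false, u)) (h4 : q (i - 4) = none) :
    Inv (Function.update (Function.update q i (some (true, x))) (i - 4) (some (false, !x))) := by
  obtain ⟨a, b, c⟩ := h
  refine ⟨?_, ?_, ?_⟩
  · intro j k y e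
    have := a j k y e
    have := b j k
    simp only [Function.update_apply]
    grind (splits := 30)
  · intro j k y e
    have := b j k y e
    have := a j k
    simp only [Function.update_apply]
    grind (splits := 30)
  · intro j u v w
    have := c j u v w
    have := a j (j + 1)
    have := a (j + 1) (j + 2)
    have := a (j + 2) (j + 3)
    have := b (j + 2) (j + 3)
    have := b (j + 3) (j + 4)
    simp only [Function.update_apply]
    grind (splits := 30)

lemma caseF (q : ℤ → Option L) (h : Inv q) (i : ℤ) (x : Bool) (h0 : q i = none)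
    (h1 : q (i + 1) ≠ none)
    (h2 : ∀ u v w, q (i + 1) = some (false, u) → q (i + 2) = some (false, v) →
      q (i + 3) = some (true, w) → q (i + 4) ≠ none)
    (h3 : ∀ v w z, q (i + 1) = some (false, v) → q (i + 2) = some (true, w) →
      q (i + 3) = some (true, z) → q (i - 1) ≠ none) :
    Inv (Function.update q i (some (false, x))) := by
  obtain ⟨a, b, c⟩ := h
  refine ⟨?_, ?_, ?_⟩
  · intro j k y e
    have := a j k y e
    have := b j k
    simp only [Function.update_apply]
    grind (splits := 30)
  · intro j k y e
    have := b j k y e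
    have := a j k
    simp only [Function.update_apply]
    grind (splits := 30)
  · intro j u v w
    have := c j u v w
    have := a j (j + 1)
    have := a (j + 1) (j + 2)
    have := a (j + 2) (j + 3)
    have := b (j + 2) (j + 3)
    have := b (j + 3) (j + 4)
    simp only [Function.update_apply]
    grind (splits := 30)

lemma caseG (q : ℤ → Option L) (h : Inv q) (i : ℤ) (x : Bool) (h0 : q i = none)
    (h1 : q (i - 1) ≠ none)
    (h2 : ∀ u v w, q (i - 1) = some (true, w) → q (i - 2) = some (false, v) →
      q (i - 3) = some (false, u) → q (i - 4) ≠ none) :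
    Inv (Function.update q i (some (true, x))) := by
  obtain ⟨a, b, c⟩ := h
  refine ⟨?_, ?_, ?_⟩
  · intro j k y e
    have := a j k y e
    have := b j k
    simp only [Function.update_apply]
    grind (splits := 30)
  · intro j k y e
    have := b j k y e
    have := a j k
    simp only [Function.update_apply]
    grind (splits := 30)
  · intro j u v w
    have := c j u v w
    have := a j (j + 1)
    have := a (j + 1) (j + 2)
    have := a (j + 2) (j + 3)
    have := b (j + 2) (j + 3)
    have := b (j + 3) (j + 4)
    simp only [Function.update_apply]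
    grind (splits := 30)

lemma key (q : ℤ → Option L) (h : Inv q) (i : ℤ) (a : L) (h0 : q i = none) :
    Inv2 (Function.update q i (some a)) := by
  have ne : ∀ j, j ≠ i → q j = none → Function.update q i (some a) j = none := fun j e f => by
    rw [Function.update_of_ne e, f]
  obtain ⟨_ | _, x⟩ := a
  · by_cases h1 : q (i + 1) = none
    · exact Or.inr ⟨_, _, ne _ (by omega) h1, caseA q h i x h0 h1⟩
    · by_cases h2 : ∃ u v w, q (i + 1) = some (false, u) ∧ q (i + 2) = some (false, v) ∧
          q (i + 3) = some (true, w) ∧ q (i + 4) = none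
      · obtain ⟨u, v, w, a, b, c, d⟩ := h2
        exact Or.inr ⟨_, _, ne _ (by omega) d, caseC q h i x h0 u v w a b c d⟩
      · by_cases h3 : ∃ v w z, q (i + 1) = some (false, v) ∧ q (i + 2) = some (true, w) ∧
            q (i + 3) = some (true, z) ∧ q (i - 1) = none
        · obtain ⟨u, v, w, a, b, c, d⟩ := h3
          exact Or.inr ⟨_, _, ne _ (by omega) d, caseD q h i x h0 u v w a b c d⟩
        · exact Or.inl (caseF q h i x h0 h1 (fun u v w a b c d => h2 ⟨u, v, w, a, b, c, d⟩)
            (fun u v w a b c d => h3 ⟨u, v, w, a, b, c, d⟩))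
  · by_cases h1 : q (i - 1) = none
    · exact Or.inr ⟨_, _, ne _ (by omega) h1, caseB q h i x h0 h1⟩
    · by_cases h2 : ∃ u v w, q (i - 1) = some (true, w) ∧ q (i - 2) = some (false, v) ∧
          q (i - 3) = some (false, u) ∧ q (i - 4) = none
      · obtain ⟨u, v, w, a, b, c, d⟩ := h2
        exact Or.inr ⟨_, _, ne _ (by omega) d, caseE q h i x h0 u v w a b c d⟩
      · exact Or.inl (caseG q h i x h0 h1 fun u v w a b c d => h2 ⟨u, v, w, a, b, c, d⟩)

lemma lose (q : ℤ → Option L) (t : Bool) (h : WinA true Set.univ FF q t) :
    (t = true → ¬ Inv q) ∧ (t = false → ¬ Inv2 q) := by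
  induction h with
  | final q t h =>
    refine ⟨fun _ e => nopat q e h, fun _ e => ?_⟩
    rcases e with e | ⟨j, a, e, f⟩
    · exact nopat q e h
    · obtain ⟨p, hp, i, hi⟩ := h
      refine nopat _ f ⟨p, hp, i, fun s hs => ?_⟩
      rw [Function.update_of_ne, hi s hs]
      intro m
      have := hi s hs
      rw [m, e] at this
      cases this
  | moveA q i a _ h0 _ ih => exact ⟨fun _ e => ih.2 rfl (key q e i a h0), by simp⟩
  | passA q _ _ ih => exact ⟨fun _ e => ih.2 rfl (Or.inl e), by simp⟩
  | moveB q _ _ _ ih1 ih2 =>
    refine ⟨by simp, fun _ e => ?_⟩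
    rcases e with e | ⟨j, a, e, f⟩
    · exact (ih2 rfl).1 rfl e
    · exact (ih1 j trivial a e).1 rfl f

lemma w2 (q : ℤ → Option L) (j : ℤ) (x : Bool) (h : q j = some (false, x))
    (h1 : q (j + 1) = none) : WinA false Set.univ FF q true :=
  WinA.moveA q (j + 1) (true, x) trivial h1 (WinA.final _ _ ((app _).mpr (Or.inl ⟨j, x, by
    simp [h]⟩)))

lemma w3 (q : ℤ → Option L) (j : ℤ) (x : Bool) (h : q (j + 1) = some (true, x))
    (h1 : q j = none) : WinA false Set.univ FF q true :=
  WinA.moveA q j (false, x) trivial h1 (WinA.final _ _ ((app _).mpr (Or.inl ⟨j, x, by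
    simp [h]⟩)))

lemma win : WinA false Set.univ FF (fun _ => (none : Option L)) true := by
  refine WinA.moveA _ 0 (false, false) trivial rfl
    (WinA.moveB _ ⟨1, trivial, by simp⟩ (fun i _ a hi => ?_) (by simp))
  have i0 : i ≠ 0 := by
    rintro rfl
    simp at hi
  by_cases i1 : i = 1
  · subst i1
    obtain ⟨_ | _, x⟩ := a
    · exact w2 _ 1 x (by simp) (by simp)
    · cases x
      · exact WinA.final _ _ ((app _).mpr (Or.inl ⟨0, false, by simp⟩))
      · refine WinA.moveA _ (-1) (false, false) trivial (by simp)
          (WinA.moveB _ ⟨2, trivial, by simp⟩ (fun j _ b hj => ?_) (by simp))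
        have j0 : j ≠ -1 ∧ j ≠ 0 ∧ j ≠ 1 := by
          refine ⟨?_, ?_, ?_⟩ <;> rintro rfl <;> simp at hj
        obtain ⟨_ | _, y⟩ := b
        · by_cases e : j = -2
          · subst e
            exact WinA.moveA _ 2 (true, y) trivial (by simp) (WinA.final _ _ ((app _).mpr
              (Or.inr ⟨-2, y, false, false, true, by simp⟩)))
          · refine w2 _ j y (by simp) ?_
            simp only [Function.update_apply]
            grind
        · by_cases e : j = 2
          · subst e
            exact WinA.moveA _ (-2) (false, y) trivial (by simp) (WinA.final _ _ ((app _).mpr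
              (Or.inr ⟨-2, y, false, false, true, by simp⟩)))
          · refine w3 _ (j - 1) y (by simp) ?_
            simp only [Function.update_apply]
            grind
  · refine w2 _ 0 false ?_ ?_ <;> simp only [Function.update_apply] <;> grind

theorem result : ∃ F : Set (Finset ℤ × (ℤ → Bool × Bool)), F.Finite ∧
    WinA false Set.univ F (fun _ => none) true ∧ ¬ WinA true Set.univ F (fun _ => none) true := by
  refine ⟨FF, (Set.finite_range _).union (Set.finite_range _), win, fun h => ?_⟩
  refine (lose _ _ h).1 rfl ⟨?_, ?_, ?_⟩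
  · intro j k x _ e
    cases e
  · intro j k x _ e
    cases e
  · intro j a b c e
    cases e

end Pool.Agent.Results.MP_d015f1_co.Example
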